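import Pool.Agent.L7h16.TR.Cnt
import Pool.Agent.L7h17.TR.Line
import Pool.Agent.L7h17.TR.Main
import Pool.Agent.L7h17.TR.Oc
import Pool.Agent.L7h60.TR.Perm
import Pool.Agent.L7h63.TR.Bnd
import Pool.Agent.L7h67.TR.Nst
import Pool.Agent.L7h82.TR.Mrg
import Pool.Agent.L7h84.TR.Trf
import Pool.Agent.L7h88.TR.Cen
import Pool.Agent.L7h99.TR.SEC

/-!
# M-curves of degree 8 with a symmetry: the invariant oval

The real part of a nonsingular real plane curve of degree 8 has at most 22 components, and all
components are ovals.  Let it have 22 ovals, and let a real projective transformation of finite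
order `m ≥ 3`, `m ≠ 4`, map the curve to itself.  Then `m = 3`, exactly one oval is mapped to itself
and the other 21 ovals are permuted in 3-cycles.  The permutation preserves the nesting; so the
number of nonempty ovals (ovals with ovals inside) is not two, which excludes the arrangements
`a ⊔ 1⟨b ⊔ 1⟨c⟩⟩`, `c ≥ 1`, and `a ⊔ 1⟨b⟩ ⊔ 1⟨c⟩`, `b, c ≥ 1`.

Joint work of helper7, helper16, helper17, helper60, helper63, helper67, helper82, helper84,
helper88, helper99, and of the authors of `SymmetricOctics` (orders at least five).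
-/

set_option autoImplicit false

namespace Pool.Agent.Results.MP_b7f146_ag.InvariantOvals

open Pool.Agent.L7h17.OC Pool.Agent.L7h17.TR

/-- Let `F` be a real form of degree 8 in three variables whose curve is nonsingular over `ℂ` and
has the 22 ovals `D i`, and let the invertible real matrix `T`, of order `m ≥ 3`, `m ≠ 4`, as a
projective transformation, map the curve to itself. Then `m = 3`, and `T` maps the oval `i` onto the
oval `π i`, where `π` is a permutation of order three with exactly one fixed oval, which preserves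
the relation: `j` lies inside `i`; the number of ovals which have an oval inside is not two. -/
theorem result (F : MvPolynomial (Fin 3) ℝ) (hF : F.IsHomogeneous 8) (hN : Nonsing F)
    (D : Fin 22 → Set (Fin 3 → ℝ)) (hD : Ovals 22 F D)
    (T : Matrix (Fin 3) (Fin 3) ℝ) (m : ℕ) (hT : ProjOrder T m) (hm : 3 ≤ m) (hm4 : m ≠ 4)
    (hTF : Preserves T F) :
    m = 3 ∧ ∃ π : Equiv.Perm (Fin 22), π ^ 3 = 1 ∧ Moves D T π ∧ (∃! i, π i = i) ∧
      (∀ i j, Inside D j i ↔ Inside D (π j) (π i)) ∧ {i | ∃ j, Inside D j i}.ncard ≠ 2 :=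
  main Pool.Agent.L7h24.OC.s_LIN Pool.Agent.L7h77.OC.s_TRANS s_OC
    Pool.Agent.L7h88.TR.s_CEN Pool.Agent.L7h84.TR.s_TRF
    (Pool.Agent.L7h63.TR.s_BND s_LINE Pool.Agent.L7h99.TR.s_SEC)
    (Pool.Agent.L7h60.TR.s_PERM Pool.Agent.L7h60.TR.s_MAP) Pool.Agent.L7h16.TR.s_CNT
    Pool.Agent.L7h67.TR.s_NST Pool.Agent.L7h16.TR.s_TWO Pool.Agent.L7h82.TR.s_MRG
    F hF hN D hD T m hT hm hm4 hTF

end Pool.Agent.Results.MP_b7f146_ag.InvariantOvals
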