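import Pool.Agent.L7h32.OS.Fin2
import Pool.Agent.L7h12.SV.Main
import Pool.Agent.L7h24.OS.Key
import Pool.Agent.L7h29.OS.Loc
import Pool.Agent.L7h36.OS.Nsg
import Pool.Agent.L7h4.OS.Shn
import Pool.Agent.L7h47.OS.Box
import Pool.Agent.L7h60.OS.In1
import Pool.Agent.L7h66.OS.Cls
import Pool.Agent.L7h66.OS.Cl3
import Pool.Agent.L7h76.OS.Cpt
import Pool.Agent.L7h96.OS.Shs
import Pool.Agent.L7h77.OC.Trans

/-!
# Real plane octics with separated variables have at most 16 ovals

A nonsingular real plane curve of degree 8 whose equation has in some real projective coordinates the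
form `A(x, z) + B(y, z) = 0` (that is: `F` is annihilated by the product of the derivatives in two
different real directions) has at most 16 ovals. So it is not an M-curve (22 ovals), and not an
(M-1)-, ..., (M-5)-curve. The number 16 is attained: `T₈(x) + T₈(y) + 1/2 = 0`, `T₈` the Chebyshev
polynomial.

Proof. The affine equation is `P(x) + Q(y) = 0`. First case: `P` and `Q` have degree 8. The critical
points of `P` and of `Q` cut the plane in at most `8 * 8` rectangles, in each of which the curve is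
connected. The arc in a rectangle can be prolonged at both ends into two different neighbouring
rectangles, or through a point at infinity into the opposite corner rectangle. So every component
meets at least four rectangles, and different components meet different ones. Second case: one of
the degrees, say that of `P`, is less than 8. Every compact piece `K` of the affine curve contains a
point with `P'(x) ≤ 0` and `Q'(y) ≤ 0`: otherwise let `y₀` be the largest `y` of the points of `K` with
`Q'(y) ≤ 0` and `x₀` the smallest `x` of the points `(x, y₀)` of `K`; then the point of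
`{(x, y) ∈ K : y ≥ y₀, x ≤ x₀}` with the smallest `x` leads to a contradiction. After the reflection
`x ↦ -x`, if necessary, `{P' ≤ 0}` consists of at most three intervals, and `{Q' ≤ 0}` of at most four; the
curve is connected in each product of two such intervals, so there are at most 12 compact pieces;
and at most one component has real points on the line `z = 0`.

By helper32 and helper12 with helper4, helper6, helper24, helper25, helper29, helper33, helper36, helper42,
helper47, helper56, helper60, helper65, helper66, helper76, helper77, helper79, helper89 and helper96;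
definitions of helper17.
-/

set_option autoImplicit false

open MvPolynomial

namespace Pool.Agent.Results.MP_b7f146_ag.SeparatedVariables

/-- The cone of the real part of the curve `F = 0`: the nonzero real zeros of `F`. -/
def realCone (F : MvPolynomial (Fin 3) ℝ) : Set (Fin 3 → ℝ) :=
  {v | v ≠ 0 ∧ eval v F = 0}

/-- The real part `{F = 0} ⊆ ℝℙ²` is the union of `k` pairwise disjoint nonempty closed sets
(given by the cones over them, which are closed in `ℝ³ ∖ {0}`).  For a nonsingular curve with `N` ovals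
this holds for `k = N`. -/
def SplitsInto (k : ℕ) (F : MvPolynomial (Fin 3) ℝ) : Prop :=
  ∃ C : Fin k → Set (Fin 3 → ℝ),
    (∀ i, (C i).Nonempty) ∧ (∀ i j, i ≠ j → Disjoint (C i) (C j)) ∧
    (⋃ i, C i) = realCone F ∧
    (∀ i, ∀ v ∈ C i, ∀ c : ℝ, c ≠ 0 → c • v ∈ C i) ∧
    (∀ i, ∃ K : Set (Fin 3 → ℝ), IsClosed K ∧ C i = K ∩ {v | v ≠ 0})

/-- The curve `F = 0` is nonsingular: `F` and its partial derivatives have no common zero in
`ℂℙ²`. -/
def Nonsing (F : MvPolynomial (Fin 3) ℝ) : Prop :=
  ∀ v : Fin 3 → ℂ, v ≠ 0 → ¬ (aeval v F = 0 ∧ ∀ i, aeval v (pderiv i F) = 0)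

/-- In the real projective coordinates `x, y, z` given by the invertible matrix `M` the form `F` is
`A(x, z) + B(y, z)`, `A` and `B` binary forms of degree 8. -/
def SeparatedBy (M : Matrix (Fin 3) (Fin 3) ℝ) (F : MvPolynomial (Fin 3) ℝ) : Prop :=
  IsUnit M ∧ ∃ a b : ℕ → ℝ, ∀ v : Fin 3 → ℝ, eval (M.mulVec v) F =
    ∑ i ∈ Finset.range 9, (a i * v 0 ^ i + b i * v 1 ^ i) * v 2 ^ (8 - i)

/-- (1) A nonsingular real octic with separated variables has at most 16 ovals. (2) There is such an
octic with 16 ovals. -/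
theorem result :
    (∀ (F : MvPolynomial (Fin 3) ℝ) (M : Matrix (Fin 3) (Fin 3) ℝ), Nonsing F → SeparatedBy M F →
      ∀ k : ℕ, SplitsInto k F → k ≤ 16) ∧
    ∃ F : MvPolynomial (Fin 3) ℝ, F.IsHomogeneous 8 ∧ Nonsing F ∧ SeparatedBy 1 F ∧
      SplitsInto 16 F := by
  have hsep : ∀ (G : MvPolynomial (Fin 3) ℝ) (a b : ℕ → ℝ), (∀ v : Fin 3 → ℝ, eval v G =
      ∑ i ∈ Finset.range 9, (a i * v 0 ^ i + b i * v 1 ^ i) * v 2 ^ (8 - i)) →
      Pool.Agent.L7h32.OS.Sep G a b := by
    intro G a b h
    refine MvPolynomial.funext fun v => ?_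
    rw [h v, map_sum]
    refine Finset.sum_congr rfl fun i _ => ?_
    simp only [map_mul, map_add, map_pow, eval_C, eval_X]
  refine ⟨fun F M hF hM k hk => ?_, ?_⟩
  · obtain ⟨hMu, a, b, hab⟩ := hM
    obtain ⟨-, h2, h3, h4⟩ := Pool.Agent.L7h77.OC.s_TRANS F M hMu
    have hS : Pool.Agent.L7h32.OS.Sep (Pool.Agent.L7h17.OC.change M F) a b :=
      hsep _ a b fun v => by rw [h2 v, hab v]
    have hK := Pool.Agent.L7h24.OS.s_KEY Pool.Agent.L7h29.OS.s_LOC
    by_cases ha : a 8 = 0
    · have h := Pool.Agent.L7h32.OS.fin2 Pool.Agent.L7h36.OS.s_NSG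
        (Pool.Agent.L7h32.OS.s_AF3 hK Pool.Agent.L7h47.OS.s_BOX Pool.Agent.L7h66.OS.s_CLS
          Pool.Agent.L7h66.OS.s_CL3) Pool.Agent.L7h76.OS.s_CPT Pool.Agent.L7h60.OS.s_IN1
        _ a b hS (h3 hF) (Or.inl ha) k (h4 k hk)
      omega
    · by_cases hb : b 8 = 0
      · have h := Pool.Agent.L7h32.OS.fin2 Pool.Agent.L7h36.OS.s_NSG
          (Pool.Agent.L7h32.OS.s_AF3 hK Pool.Agent.L7h47.OS.s_BOX Pool.Agent.L7h66.OS.s_CLS
            Pool.Agent.L7h66.OS.s_CL3) Pool.Agent.L7h76.OS.s_CPT Pool.Agent.L7h60.OS.s_IN1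
          _ a b hS (h3 hF) (Or.inr hb) k (h4 k hk)
        omega
      · exact Pool.Agent.L7h12.SV.bound_sep hS ha hb (h3 hF) (h4 k hk)
  · obtain ⟨F, hF⟩ : ∃ F : MvPolynomial (Fin 3) ℝ, Pool.Agent.L7h32.OS.Sep F
        (Pool.Agent.L7h32.OS.cheb (1 / 2)) (Pool.Agent.L7h32.OS.cheb 0) :=
      ⟨∑ i ∈ Finset.range 9, (C (Pool.Agent.L7h32.OS.cheb (1 / 2) i) * X 0 ^ i +
        C (Pool.Agent.L7h32.OS.cheb 0 i) * X 1 ^ i) * X 2 ^ (8 - i), rfl⟩
    obtain ⟨h1, h2, -⟩ := Pool.Agent.L7h4.OS.s_SHN F hF
    refine ⟨F, h1, h2, ⟨isUnit_one, Pool.Agent.L7h32.OS.cheb (1 / 2),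
      Pool.Agent.L7h32.OS.cheb 0, fun v => ?_⟩, Pool.Agent.L7h96.OS.s_SHS F hF⟩
    rw [Matrix.one_mulVec]
    conv_lhs => rw [show F = _ from hF]
    rw [map_sum]
    refine Finset.sum_congr rfl fun i _ => ?_
    simp only [map_mul, map_add, map_pow, eval_C, eval_X]

end Pool.Agent.Results.MP_b7f146_ag.SeparatedVariables
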