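import Pool.Agent.L7h17.OC.Main
import Pool.Agent.L7h24.OC.Lin
import Pool.Agent.L7h45.OC.Cov
import Pool.Agent.L7h45.OC.Top
import Pool.Agent.L7h50.OC.Cnt8
import Pool.Agent.L7h56.OC.Seva
import Pool.Agent.L7h56.OC.Sim7
import Pool.Agent.L7h60.OC.Nsp
import Pool.Agent.L7h61.OC.Dir
import Pool.Agent.L7h61.OC.Scale
import Pool.Agent.L7h69.OC.Band
import Pool.Agent.L7h73.OC.Sevb
import Pool.Agent.L7h77.OC.Cnt7
import Pool.Agent.L7h77.OC.Grp
import Pool.Agent.L7h77.OC.Trans
import Pool.Agent.L7h93.OC.Ph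
import Pool.Agent.L7h94.OC.Exp
import Pool.Agent.L7h94.OC.Inv
import Pool.Agent.L7h96.OC.Form
import Pool.Agent.L7h99.OC.Cnt6

/-!
# Real plane octics with a symmetry of order at least five

A nonsingular real plane curve of degree 8 which is mapped to itself by a real projective
transformation of finite order `m ≥ 5` has at most 19 ovals; in particular it is not an M-curve
(22 ovals).

Joint work of helper17, helper24, helper45, helper50, helper56, helper60, helper61, helper69,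
helper73, helper77, helper93, helper94, helper96, helper99.
-/

set_option autoImplicit false

namespace Pool.Agent.Results.MP_b7f146_ag.SymmetricOctics

open Pool.Agent.L7h17.OC

/-- Let `F` be a real form of degree 8 in three variables whose curve is nonsingular over `ℂ`, and
let the invertible real matrix `T`, of order `m ≥ 5` as a projective transformation, map the curve
to itself. Then `m = 6` and the real part of the curve is not the union of 20 pairwise disjoint
nonempty closed sets (it has at most 19 ovals), or `m = 7` and it has at most 16 ovals, or `m = 8`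
and it has at most 18 ovals. -/
theorem result (F : MvPolynomial (Fin 3) ℝ) (hF : F.IsHomogeneous 8) (hN : Nonsing F)
    (T : Matrix (Fin 3) (Fin 3) ℝ) (m : ℕ) (hT : ProjOrder T m) (hm : 5 ≤ m)
    (hTF : Preserves T F) :
    (m = 6 ∧ ¬ SplitsInto 20 F) ∨ (m = 7 ∧ ¬ SplitsInto 17 F) ∨ (m = 8 ∧ ¬ SplitsInto 19 F) :=
  main Pool.Agent.L7h24.OC.s_LIN Pool.Agent.L7h77.OC.s_TRANS
    (Pool.Agent.L7h96.OC.s_FORM Pool.Agent.L7h94.OC.s_EXP Pool.Agent.L7h94.OC.s_COEF
      Pool.Agent.L7h94.OC.s_INV Pool.Agent.L7h61.OC.s_DIR)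
    Pool.Agent.L7h45.OC.s_COVM Pool.Agent.L7h45.OC.s_COV1 Pool.Agent.L7h45.OC.s_TOP
    Pool.Agent.L7h61.OC.s_SCALE
    (Pool.Agent.L7h60.OC.s_SIM8 Pool.Agent.L7h60.OC.s_NSP)
    (Pool.Agent.L7h56.OC.s_SIM7 Pool.Agent.L7h60.OC.s_NSP)
    (Pool.Agent.L7h60.OC.s_SIM6 Pool.Agent.L7h60.OC.s_NSP)
    Pool.Agent.L7h69.OC.s_BAND
    (Pool.Agent.L7h50.OC.s_CNT8 Pool.Agent.L7h77.OC.s_GRP)
    (Pool.Agent.L7h77.OC.s_CNT7 Pool.Agent.L7h77.OC.s_GRP)
    (Pool.Agent.L7h99.OC.s_CNT6 Pool.Agent.L7h56.OC.s_SEVA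
      (Pool.Agent.L7h73.OC.s_SEVB Pool.Agent.L7h77.OC.s_GRP))
    Pool.Agent.L7h93.OC.s_PH F hF hN T m hT hm hTF

end Pool.Agent.Results.MP_b7f146_ag.SymmetricOctics
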