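import Pool.Agent.L7h78.TO.Rot
import Pool.Agent.L7h64.HF.Fin

/-!
# Real plane octics which are trinomials in one variable

Let `F` be a real form of degree 8 in three variables such that the curve `F = 0` is nonsingular, and such that in
some real projective coordinates

  `F = A(x,z) + B(x,z) y ^ m + c y ^ 8`, `1 ≤ m ≤ 7`, `c ≠ 0`,

with arbitrary binary forms `A`, `B` of degrees `8` and `8 - m` (`ThreeTerms m`).

**Theorem.** The real part of the curve has at most 14, 20, 12, 10, 10, 12, 8 connected components (ovals) for
`m = 1, 2, 3, 4, 5, 6, 7`. So no curve of this kind is an M-curve (22 ovals), nor does it have 21 ovals.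

Proof. First suppose that some real line through `(0,1,0)` does not meet the real part of the curve; we may take it
as the line `z = 0`. Every piece of the curve is then compact in the chart `z = 1` and has a leftmost and a
rightmost point; these are different points of the curve with `∂F/∂y = 0`. At such a point either `y = 0` and `A(x,1) = 0`
(at most 8 points), or (with `c = 1`) `A > 0`, `B ≠ 0` and `A / |B| ^ (8 / (8 - m))` has a certain value `κ`, and then there
are at most 2 (`m` even) or 1 (`m` odd) points over `x`. The number of these `x` is bounded by Rolle's theorem: between two of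
them either `B` has a zero (two zeros, counted with multiplicity, for `m` even, because then `B < 0` at these `x`), or
`W = (8 - m) A' B - 8 A B'` has a zero; `W` has degree at most `14 - m`, and is not zero since at these points it is
`(8 - m) B ∂F/∂x`. So there are at most `23 - 2 m` (`m` odd), `19 - 3 m / 2` (`m` even) such `x`; for `m = 6, 7` at most 8 by the
discriminant. Now suppose that every real line through `(0,1,0)` meets the real part. Then there is no point of the second kind:
at such a point the discriminant has a zero with a derivative that is not zero, so there are lines through `(0,1,0)` near it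
without real points. So at most 4 pieces miss the line `z = 0`, and at most 4 pieces meet it.
For `m = 4` there is a better bound (project HF): `F` is a quadratic polynomial in `y ^ 4`, its discriminant has degree 8, and
the pieces are counted over the at most four arcs where it is positive.

By helper69 and helper78; `m = 4` by helper28 and helper64 with helper6, helper21, helper29, helper53, helper65, helper79,
helper87, helper88; definitions by helper17, changes of coordinates by helper77, chain rule by helper60, local
continuation and compactness adapted from helper29 and helper76.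
-/

set_option autoImplicit false

namespace Pool.Agent.Results.MP_b7f146_ag.TrinomialOctics

open Pool.Agent.L7h17.OC Pool.Agent.L7h69.TO Pool.Agent.L7h78.TO

theorem result : ∀ (F : MvPolynomial (Fin 3) ℝ) (m k : ℕ) (M : Matrix (Fin 3) (Fin 3) ℝ),
    F.IsHomogeneous 8 → Nonsing F → IsUnit M → ThreeTerms m (change M F) → SplitsInto k F →
      (m = 1 → k ≤ 14) ∧ (m = 2 → k ≤ 20) ∧ (m = 3 → k ≤ 12) ∧ (m = 4 → k ≤ 10) ∧
      (m = 5 → k ≤ 10) ∧ (m = 6 → k ≤ 12) ∧ (m = 7 → k ≤ 8) := by
  intro F m k M hF hN hM h3 hk
  obtain ⟨t1, _, t2, t3⟩ := Pool.Agent.L7h77.OC.s_TRANS F M hM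
  have hF' := t1 hF
  have hN' := t2 hN
  have hk' := t3 k hk
  have odd : ∀ n : ℕ, 1 ≤ n → n ≤ 7 → Odd n → m = n → k ≤ max ((8 + (23 - 2 * n) * 1) / 2) 7 := by
    intro n hn hn7 ho hmn
    subst hmn
    have h := Pool.Agent.L7h78.TO.main m hn hn7 false
      (fun he => absurd he (Nat.not_even_iff_odd.2 ho)) {1} (23 - 2 * m) sg_mem_false
      (fun A B c hc hA hB hR => T_odd m hn hn7 A B c hc hA hB hR) _ hF' hN' h3 k hk'
    simpa using h
  refine ⟨fun h => ?_, ?_, fun h => ?_, ?_, fun h => ?_, ?_, ?_⟩
  · have := odd 1 (by norm_num) (by norm_num) (by decide) h
    simpa using this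
  · rintro rfl
    have h := Pool.Agent.L7h78.TO.main 2 (by norm_num) (by norm_num) true (fun _ => rfl) {1, 2} 16
      sg_mem_true (fun A B c hc hA hB hR => by
        obtain ⟨T, h1, h2⟩ := T_even 2 (by norm_num) (by norm_num) (by decide) A B c hc hA hB hR
        exact ⟨T, by omega, h2⟩) _ hF' hN' h3 k hk'
    simpa using h
  · have := odd 3 (by norm_num) (by norm_num) (by decide) h
    simpa using this
  · rintro rfl
    exact Pool.Agent.L7h64.HF.three4 F k M hF hN hM h3 hk
  · have := odd 5 (by norm_num) (by norm_num) (by decide) h
    simpa using this
  · rintro rfl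
    have h := Pool.Agent.L7h78.TO.main 6 (by norm_num) (by norm_num) true (fun _ => rfl) {1, 2} 8
      sg_mem_true (fun A B c hc hA hB hR => T6 hc hA hB hR) _ hF' hN' h3 k hk'
    simpa using h
  · rintro rfl
    have h := Pool.Agent.L7h78.TO.main 7 (by norm_num) (by norm_num) false
      (fun he => absurd he (by decide)) {1} 8
      sg_mem_false (fun A B c hc hA hB hR => T7 hc hA hB hR) _ hF' hN' h3 k hk'
    simpa using h

end Pool.Agent.Results.MP_b7f146_ag.TrinomialOctics
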